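import Mathlib
import Pool.Agent.W234.LP.Defs
import Pool.Agent.W234.LP.Tree
import Pool.Agent.W234.LP.Components
import Pool.Agent.W234.LP.Products

/-!
Graph LP algebras over an arbitrary domain `R`: definitions, and linear independence of Laurent
polynomials with pairwise distinct lowest terms.
-/

namespace Pool.Agent.L7h93.LPB

open Pool.Agent.W234.LP Finset
open scoped Classical

noncomputable section

/-- The field of fractions of `R[X_1, ..., X_n]`. -/
abbrev Amb (n : ℕ) (R : Type*) [CommRing R] : Type _ := FractionRing (MvPolynomial (Fin n) R)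

variable {n : ℕ} {R : Type*} [CommRing R] [IsDomain R]

/-- The initial cluster variable `X_i`. -/
def gX (R : Type*) [CommRing R] (i : Fin n) : Amb n R :=
  algebraMap (MvPolynomial (Fin n) R) (Amb n R) (MvPolynomial.X i)

/-- The coefficient `A_i`, as an element of the ambient field. -/
def gA (A : Fin n → R) (i : Fin n) : Amb n R := algebraMap R (Amb n R) (A i)

/-- `Y_I`. -/
def gY (Γ : Fin n → Fin n → Prop) (A : Fin n → R) (I : Finset (Fin n)) : Amb n R :=
  (∑ f ∈ univ.filter (fun f : I → Fin n => IsEdgeMap Γ I f ∧ IsAcyclicMap I f),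
    ∏ i : I, if f i = i then gA A (i : Fin n) else gX R (f i)) / ∏ i ∈ I, gX R i

/-- The elements `y_i`. -/
def gy (Γ : Fin n → Fin n → Prop) (A : Fin n → R) (i : Fin n) : Amb n R :=
  (gA A i + ∑ j ∈ univ.filter (fun j => Γ i j), gX R j) / gX R i

lemma gX_ne_zero (i : Fin n) : (gX R i : Amb n R) ≠ 0 := by
  rw [gX, Ne, IsFractionRing.to_map_eq_zero_iff]
  exact MvPolynomial.X_ne_zero i

lemma gy_mul (Γ : Fin n → Fin n → Prop) (A : Fin n → R) (i : Fin n) :
    gy Γ A i * gX R i = gA A i + ∑ j ∈ univ.filter (fun j => Γ i j), gX R j := by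
  rw [gy, div_mul_cancel₀ _ (gX_ne_zero i)]

theorem gY_eq (Γ : Fin n → Fin n → Prop) (A : Fin n → R) (hΓ : ∀ i, ¬ Γ i i)
    (I : Finset (Fin n)) : gY Γ A I = D (gy Γ A) Γ I := by
  rw [tree (gX R) (gA A) (gy Γ A) Γ hΓ gX_ne_zero (gy_mul Γ A) I, gY]

/-- Laurent monomials. -/
def lm (R : Type*) [CommRing R] [IsDomain R] (d : Fin n → ℤ) : Amb n R := ∏ i, gX R i ^ d i

lemma lm_add (d e : Fin n → ℤ) : lm R (d + e) = lm R d * lm R e := by
  simp only [lm, Pi.add_apply]
  rw [← Finset.prod_mul_distrib]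
  exact Finset.prod_congr rfl fun i _ => zpow_add₀ (gX_ne_zero i) _ _

lemma lm_zero : lm R (0 : Fin n → ℤ) = 1 := by simp [lm]

lemma lm_nat (d : Fin n → ℤ) (e : Fin n →₀ ℕ) (h : ∀ i, d i = e i) :
    lm R d = algebraMap (MvPolynomial (Fin n) R) (Amb n R) (MvPolynomial.monomial e 1) := by
  rw [MvPolynomial.monomial_eq, map_one, one_mul, Finsupp.prod_fintype _ _ (by simp), map_prod]
  refine Finset.prod_congr rfl fun i _ => ?_
  rw [h i, zpow_natCast, map_pow, gX]

/-- `z` is `X^(-d)` times a polynomial with nonzero constant coefficient. -/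
def HasD (z : Amb n R) (d : Fin n → ℤ) : Prop :=
  ∃ q : MvPolynomial (Fin n) R, q.coeff 0 ≠ 0 ∧
    z = lm R (-d) * algebraMap (MvPolynomial (Fin n) R) (Amb n R) q

lemma HasD.one : HasD (1 : Amb n R) 0 := by
  refine ⟨1, by simp, ?_⟩
  rw [neg_zero, lm_zero, map_one, one_mul]

lemma HasD.mul {z w : Amb n R} {d e : Fin n → ℤ} (hz : HasD z d) (hw : HasD w e) :
    HasD (z * w) (d + e) := by
  obtain ⟨q, hq, rfl⟩ := hz
  obtain ⟨r, hr, rfl⟩ := hw
  refine ⟨q * r, ?_, ?_⟩
  · rw [← MvPolynomial.constantCoeff_eq, map_mul]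
    rw [← MvPolynomial.constantCoeff_eq] at hq hr
    exact mul_ne_zero hq hr
  · rw [neg_add, lm_add, map_mul]
    ring

theorem indep {ι : Type*} (v : ι → Amb n R) (d : ι → Fin n → ℤ) (hd : Function.Injective d)
    (hv : ∀ i, HasD (v i) (d i)) : LinearIndependent R v := by
  rw [linearIndependent_iff']
  intro s g hg
  by_contra hcon
  push Not at hcon
  obtain ⟨i1, hi1, hgi1⟩ := hcon
  obtain ⟨i0, hi0, hmax⟩ := Finset.exists_max_image (s.filter (fun i => g i ≠ 0))
    (fun i => ∑ j, d i j) ⟨i1, Finset.mem_filter.2 ⟨hi1, hgi1⟩⟩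
  rw [Finset.mem_filter] at hi0
  choose q hq0 hq using hv
  -- a common bound for the exponents
  let N : Fin n → ℕ := fun j => ∑ i ∈ s, (d i j).toNat
  have hN : ∀ i ∈ s, ∀ j, d i j ≤ N j := by
    intro i hi j
    have h1 : (d i j).toNat ≤ N j := Finset.single_le_sum (f := fun i => (d i j).toNat)
      (fun _ _ => Nat.zero_le _) hi
    have h2 := Int.self_le_toNat (d i j)
    exact h2.trans (by exact_mod_cast h1)
  let e : ι → Fin n →₀ ℕ := fun i => Finsupp.equivFunOnFinite.symm (fun j => ((N j : ℤ) - d i j).toNat)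
  have he : ∀ i ∈ s, ∀ j, ((e i j : ℕ) : ℤ) = (N j : ℤ) - d i j := by
    intro i hi j
    show ((((N j : ℤ) - d i j).toNat : ℕ) : ℤ) = _
    rw [Int.toNat_of_nonneg]
    linarith [hN i hi j]
  have key : ∑ i ∈ s, MvPolynomial.monomial (e i) (g i) * q i = 0 := by
    have h1 : lm R (fun j => (N j : ℤ)) * ∑ i ∈ s, g i • v i = 0 := by rw [hg, mul_zero]
    rw [Finset.mul_sum] at h1
    have h2 : ∀ i ∈ s, lm R (fun j => (N j : ℤ)) * (g i • v i) =
        algebraMap (MvPolynomial (Fin n) R) (Amb n R) (MvPolynomial.monomial (e i) (g i) * q i) := by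
      intro i hi
      rw [hq i, Algebra.smul_def, map_mul]
      have h3 : lm R (fun j => (N j : ℤ)) * lm R (-d i) =
          algebraMap (MvPolynomial (Fin n) R) (Amb n R) (MvPolynomial.monomial (e i) 1) := by
        rw [← lm_add]
        apply lm_nat
        intro j
        rw [he i hi j]
        simp [sub_eq_add_neg]
      have h4 : (MvPolynomial.monomial (e i) (g i) : MvPolynomial (Fin n) R) =
          MvPolynomial.C (g i) * MvPolynomial.monomial (e i) 1 := by
        rw [MvPolynomial.C_mul_monomial, mul_one]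
      rw [h4, map_mul, ← h3]
      have h5 : algebraMap R (Amb n R) (g i) =
          algebraMap (MvPolynomial (Fin n) R) (Amb n R) (MvPolynomial.C (g i)) := by
        rw [IsScalarTower.algebraMap_apply R (MvPolynomial (Fin n) R) (Amb n R)]
        rfl
      rw [h5]
      ring
    rw [Finset.sum_congr rfl h2, ← map_sum] at h1
    exact (IsFractionRing.to_map_eq_zero_iff).1 h1
  have h6 := congrArg (MvPolynomial.coeff (e i0)) key
  rw [MvPolynomial.coeff_sum, MvPolynomial.coeff_zero, Finset.sum_eq_single_of_mem i0 hi0.1] at h6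
  · rw [MvPolynomial.coeff_monomial_mul', if_pos le_rfl, tsub_self] at h6
    exact (mul_ne_zero hi0.2 (hq0 i0)) h6
  · intro i hi hne
    rw [MvPolynomial.coeff_monomial_mul']
    split_ifs with hle
    · by_cases hgi : g i = 0
      · rw [hgi, zero_mul]
      · exfalso
        have h7 : ∀ j, d i0 j ≤ d i j := by
          intro j
          have h8 : ((e i j : ℕ) : ℤ) ≤ (e i0 j : ℕ) := by exact_mod_cast hle j
          rw [he i hi j, he i0 hi0.1 j] at h8
          linarith
        have h9 := hmax i (Finset.mem_filter.2 ⟨hi, hgi⟩)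
        have h10 : ∀ j ∈ (univ : Finset (Fin n)), d i0 j = d i j :=
          (Finset.sum_eq_sum_iff_of_le (fun j _ => h7 j)).1
            (le_antisymm (Finset.sum_le_sum fun j _ => h7 j) h9)
        exact hne (hd (funext fun j => (h10 j (Finset.mem_univ j)).symm))
    · rfl

/-- The lowest term of `Y_U`. -/
lemma hasD_Y (Γ : Fin n → Fin n → Prop) (A : Fin n → R) (hA : ∀ i, A i ≠ 0)
    (U : Finset (Fin n)) : HasD (gY Γ A U) (fun i => if i ∈ U then 1 else 0) := by
  refine ⟨∑ f ∈ univ.filter (fun f : U → Fin n => IsEdgeMap Γ U f ∧ IsAcyclicMap U f),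
    ∏ i : U, if f i = i then MvPolynomial.C (A (i : Fin n)) else MvPolynomial.X (f i), ?_, ?_⟩
  · rw [← MvPolynomial.constantCoeff_eq, map_sum]
    rw [Finset.sum_eq_single_of_mem (fun i : U => (i : Fin n))]
    · rw [map_prod]
      apply Finset.prod_ne_zero_iff.2
      intro i _
      rw [if_pos rfl, MvPolynomial.constantCoeff_C]
      exact hA i
    · rw [Finset.mem_filter]
      refine ⟨Finset.mem_univ _, fun i => Or.inl rfl, ?_⟩
      intro a ha
      obtain ⟨b, hb, -⟩ := Relation.TransGen.head'_iff.1 ha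
      obtain ⟨h1, h2, h3⟩ := hb
      exact h1 h3
    · intro f _ hf
      have : ∃ i : U, f i ≠ i := by
        by_contra hcon
        push Not at hcon
        exact hf (funext hcon)
      obtain ⟨i, hi⟩ := this
      rw [map_prod]
      apply Finset.prod_eq_zero (Finset.mem_univ i)
      rw [if_neg hi, MvPolynomial.constantCoeff_X]
  · rw [gY, div_eq_mul_inv, mul_comm]
    congr 1
    · rw [lm, ← Finset.prod_inv_distrib]
      rw [← Finset.prod_subset (Finset.subset_univ U)]
      · refine Finset.prod_congr rfl fun i hi => ?_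
        simp [hi]
      · intro i _ hi
        simp [hi]
    · rw [map_sum]
      refine Finset.sum_congr rfl fun f _ => ?_
      rw [map_prod]
      refine Finset.prod_congr rfl fun i _ => ?_
      split_ifs
      · rw [gA, IsScalarTower.algebraMap_apply R (MvPolynomial (Fin n) R) (Amb n R)]
        rfl
      · rfl

lemma hasD_X (i : Fin n) : HasD (gX R i : Amb n R) (fun j => if j = i then -1 else 0) := by
  refine ⟨1, by simp, ?_⟩
  rw [map_one, mul_one, lm, Finset.prod_eq_single_of_mem i (Finset.mem_univ i)]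
  · simp
  · intro j _ hj
    simp [hj]

end

end Pool.Agent.L7h93.LPB
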