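import Mathlib
import Pool.Agent.L7h93.LPB.Indep

/-!
A multiset of members of a nested family is determined by its vector of multiplicities.
-/

namespace Pool.Agent.L7h93.LPB

open Pool.Agent.W234.LP Finset
open scoped Classical

noncomputable section

variable {n : ℕ} {Γ : Fin n → Fin n → Prop}

/-- The number of members of `m` containing `j`. -/
def cnt (m : Multiset (Finset (Fin n))) (j : Fin n) : ℕ := Multiset.countP (fun S => j ∈ S) m

lemma cnt_add (m m' : Multiset (Finset (Fin n))) (j : Fin n) :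
    cnt (m + m') j = cnt m j + cnt m' j := Multiset.countP_add _ _ _

/-- The support. -/
def supp (m : Multiset (Finset (Fin n))) : Finset (Fin n) := univ.filter (fun j => 0 < cnt m j)

lemma mem_supp {m : Multiset (Finset (Fin n))} {j : Fin n} : j ∈ supp m ↔ ∃ S ∈ m, j ∈ S := by
  rw [supp, Finset.mem_filter, cnt, Multiset.countP_pos]
  simp

lemma components_le (σ : Finset (Finset (Fin n))) (hσ : IsNested Γ σ)
    (m : Multiset (Finset (Fin n))) (hm : ∀ S ∈ m, S ∈ σ) :
    (univ.filter (fun C => IsComponent Γ (supp m) C)).val ≤ m := by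
  set τ : Finset (Finset (Fin n)) :=
    m.toFinset.filter (fun S => ∀ T ∈ m, S ⊆ T → T = S) with hτ
  have h1 : τ ⊆ σ := by
    intro S hS
    rw [hτ, Finset.mem_filter, Multiset.mem_toFinset] at hS
    exact hm S hS.1
  have h2 : ∀ I ∈ τ, ∀ J ∈ τ, I ≠ J → Disjoint I J := by
    intro I hI J hJ hne
    rcases hσ.2.1 I (h1 hI) J (h1 hJ) with h | h | h
    · exact h
    · rw [hτ, Finset.mem_filter, Multiset.mem_toFinset] at hI hJ
      exact absurd (hI.2 J hJ.1 h).symm hne
    · rw [hτ, Finset.mem_filter, Multiset.mem_toFinset] at hI hJ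
      exact absurd (hJ.2 I hI.1 h) hne
  have h3 : τ.biUnion id = supp m := by
    ext j
    rw [Finset.mem_biUnion, mem_supp]
    constructor
    · rintro ⟨S, hS, hj⟩
      rw [hτ, Finset.mem_filter, Multiset.mem_toFinset] at hS
      exact ⟨S, hS.1, hj⟩
    · rintro ⟨S, hS, hj⟩
      obtain ⟨T, hT, hmax⟩ := Finset.exists_max_image (m.toFinset.filter (fun T => S ⊆ T))
        Finset.card ⟨S, by simp [hS]⟩
      rw [Finset.mem_filter, Multiset.mem_toFinset] at hT
      refine ⟨T, ?_, hT.2 hj⟩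
      rw [hτ, Finset.mem_filter, Multiset.mem_toFinset]
      refine ⟨hT.1, fun T' hT' hsub => ?_⟩
      exact (Finset.eq_of_subset_of_card_le hsub
        (hmax T' (by simp [hT', hT.2.trans hsub]))).symm
  have h4 := hσ.2.2 τ h1 h2
  rw [h3] at h4
  rw [Multiset.le_iff_subset (Finset.nodup _)]
  intro C hC
  rw [Finset.mem_val, Finset.mem_filter] at hC
  have := (h4 C).2 hC.2
  rw [hτ, Finset.mem_filter, Multiset.mem_toFinset] at this
  exact this.1

theorem determined : ∀ (k : ℕ) (σ σ' : Finset (Finset (Fin n))) (_ : IsNested Γ σ)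
    (_ : IsNested Γ σ') (m m' : Multiset (Finset (Fin n))) (_ : ∀ S ∈ m, S ∈ σ)
    (_ : ∀ S ∈ m', S ∈ σ') (_ : ∀ j, cnt m j = cnt m' j), Multiset.card m = k → m = m' := by
  intro k
  induction k using Nat.strong_induction_on with
  | _ k ih =>
  intro σ σ' hσ hσ' m m' hm hm' hc hk
  have hs : supp m = supp m' := by
    ext j
    rw [supp, supp, Finset.mem_filter, Finset.mem_filter, hc j]
  by_cases hm0 : m = 0
  · subst hm0
    symm
    rw [Multiset.eq_zero_iff_forall_notMem]
    intro S hS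
    obtain ⟨j, hj⟩ := (hσ'.1 S (hm' S hS)).1
    have h1 : j ∈ supp m' := mem_supp.2 ⟨S, hS, hj⟩
    rw [← hs, mem_supp] at h1
    obtain ⟨T, hT, _⟩ := h1
    exact absurd hT (Multiset.notMem_zero T)
  · have h1 := components_le σ hσ m hm
    have h2 := components_le σ' hσ' m' hm'
    rw [← hs] at h2
    have hne : 0 < Multiset.card (univ.filter (fun C => IsComponent Γ (supp m) C)).val := by
      obtain ⟨S, hS⟩ := Multiset.exists_mem_of_ne_zero hm0
      obtain ⟨j, hj⟩ := (hσ.1 S (hm S hS)).1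
      obtain ⟨C, hC, _⟩ := exists_component (Γ := Γ) (supp m) (mem_supp.2 ⟨S, hS, hj⟩)
      rw [Multiset.card_pos_iff_exists_mem]
      exact ⟨C, Finset.mem_filter.2 ⟨Finset.mem_univ _, hC⟩⟩
    obtain ⟨τ, hτ⟩ : ∃ τ, τ = univ.filter (fun C => IsComponent Γ (supp m) C) := ⟨_, rfl⟩
    rw [← hτ] at h1 h2 hne
    clear hτ hs
    obtain ⟨m1, rfl⟩ := Multiset.le_iff_exists_add.1 h1
    obtain ⟨m1', rfl⟩ := Multiset.le_iff_exists_add.1 h2
    rw [Multiset.card_add] at hk
    congr 1
    refine ih (Multiset.card m1) (by omega) σ σ' hσ hσ' m1 m1'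
      (fun S hS => hm S (Multiset.mem_add.2 (Or.inr hS)))
      (fun S hS => hm' S (Multiset.mem_add.2 (Or.inr hS))) (fun j => ?_) rfl
    have := hc j
    rw [cnt_add, cnt_add] at this
    omega

end

end Pool.Agent.L7h93.LPB
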